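import Pool.Agent.H71.CO.Targets

/-!
# Rows INK and RIG: Borel invariants of tuples, the dichotomy for rigid structures
-/

set_option autoImplicit false

open Set

namespace Pool.Agent.H14.CO

open Pool.Agent.H71.CO
open Pool.Agent.H71.CQ (Iso IsIso)

theorem pf_INK (hSIL : Pool.Agent.H71.CQ.T_SIL) (hCTO : Pool.Agent.H71.CQ.T_CTO) : T_INK := by
  intro C _ _ K hK hP k Y _ _ ρ hρ hinv
  have hr : Measurable fun p : (ℕ → ℕ → C) × (Fin k → ℕ) => ρ p.1 p.2 :=
    measurable_from_prod_countable_left fun z => hρ z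
  have hX : MeasurableSet {p : (ℕ → ℕ → C) × (Fin k → ℕ) | p.1 ∈ K} := measurable_fst hK
  have hE : MeasurableSet {p : ((ℕ → ℕ → C) × (Fin k → ℕ)) × ((ℕ → ℕ → C) × (Fin k → ℕ)) |
      ρ p.1.1 p.1.2 = ρ p.2.1 p.2.2} :=
    measurableSet_eq_fun (hr.comp measurable_fst) (hr.comp measurable_snd)
  rcases hSIL _ {p : (ℕ → ℕ → C) × (Fin k → ℕ) | p.1 ∈ K} hX
    (fun p p' => ρ p.1 p.2 = ρ p'.1 p'.2) (fun _ _ => rfl) (fun _ _ _ _ h => h.symm)
    (fun _ _ _ _ _ _ h h' => h.trans h') hE with ⟨D, hDX, hD, hall⟩ | ⟨F, hF, hFX, hFE⟩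
  · refine (hD.image fun p => ρ p.1 p.2).mono ?_
    rintro y ⟨e, z, he, rfl⟩
    obtain ⟨d, hd, h⟩ := hall (e, z) he
    exact ⟨d, hd, h.symm⟩
  · exfalso
    have hF1 : Measurable fun u => (F u).1 := measurable_fst.comp hF
    have hc : ∀ u, {v | Iso (F u).1 (F v).1}.Countable := by
      intro u
      refine Set.MapsTo.countable_of_injOn (f := fun v => ρ (F v).1 (F v).2)
        (t := Set.range (ρ (F u).1)) ?_ ?_ (Set.countable_range _)
      · rintro v ⟨g, hg⟩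
        refine ⟨g.symm ∘ (F v).2, ?_⟩
        have h := hinv _ _ g hg (g.symm ∘ (F v).2)
        rw [← h]
        congr 1
        funext i
        simp
      · intro v _ v' _ h
        by_contra hne
        exact hFE v v' hne h
    obtain ⟨f, hf, hff⟩ := hCTO C (fun u => (F u).1) hF1 hc
    exact hP ⟨fun u => (F (f u)).1, hF1.comp hf, fun u => hFX (f u), hff⟩

/-- the isomorphism relation of a Borel class of rigid structures is Borel -/
theorem meas_iso (C : Type) [MeasurableSpace C] [StandardBorelSpace C] (K : Set (ℕ → ℕ → C))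
    (hK : MeasurableSet K) (hr : ∀ e ∈ K, ∀ g : ℕ ≃ ℕ, IsIso e e g → g = Equiv.refl ℕ) :
    MeasurableSet {p : (ℕ → ℕ → C) × (ℕ → ℕ → C) | p.1 ∈ K ∧ p.2 ∈ K ∧ Iso p.1 p.2} := by
  set T : (ℕ → ℕ → C) × ((ℕ → ℕ) × (ℕ → ℕ)) → (ℕ → ℕ → C) × (ℕ → ℕ → C) :=
    fun p => (p.1, fun x y => p.1 (p.2.2 x) (p.2.2 y)) with hT
  have hev : Measurable fun q : (ℕ → ℕ → C) × (ℕ × ℕ) => q.1 q.2.1 q.2.2 :=
    measurable_from_prod_countable_left fun z =>
      (measurable_pi_apply z.2).comp (measurable_pi_apply z.1)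
  have hT2 : Measurable fun p : (ℕ → ℕ → C) × ((ℕ → ℕ) × (ℕ → ℕ)) =>
      (fun x y => p.1 (p.2.2 x) (p.2.2 y) : ℕ → ℕ → C) := by
    refine measurable_pi_lambda _ fun x => measurable_pi_lambda _ fun y => ?_
    have : Measurable fun p : (ℕ → ℕ → C) × ((ℕ → ℕ) × (ℕ → ℕ)) =>
        ((p.1, (p.2.2 x, p.2.2 y)) : (ℕ → ℕ → C) × (ℕ × ℕ)) :=
      measurable_fst.prodMk (((measurable_pi_apply x).comp
        (measurable_snd.comp measurable_snd)).prodMk ((measurable_pi_apply y).comp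
        (measurable_snd.comp measurable_snd)))
    exact hev.comp this
  have hTm : Measurable T := measurable_fst.prodMk hT2
  set S : Set ((ℕ → ℕ → C) × ((ℕ → ℕ) × (ℕ → ℕ))) :=
    {p | p.1 ∈ K ∧ (fun x y => p.1 (p.2.2 x) (p.2.2 y)) ∈ K ∧
      ∀ n, p.2.1 (p.2.2 n) = n ∧ p.2.2 (p.2.1 n) = n} with hS
  have hap : Measurable fun q : (ℕ → ℕ) × ℕ => q.1 q.2 :=
    measurable_from_prod_countable_left fun z => measurable_pi_apply z
  have hSm : MeasurableSet S := by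
    refine (measurable_fst hK).inter ((hT2 hK).inter ?_)
    have : {p : (ℕ → ℕ → C) × ((ℕ → ℕ) × (ℕ → ℕ)) |
        ∀ n, p.2.1 (p.2.2 n) = n ∧ p.2.2 (p.2.1 n) = n} =
        ⋂ n, ({p : (ℕ → ℕ → C) × ((ℕ → ℕ) × (ℕ → ℕ)) | p.2.1 (p.2.2 n) = n} ∩
          {p : (ℕ → ℕ → C) × ((ℕ → ℕ) × (ℕ → ℕ)) | p.2.2 (p.2.1 n) = n}) := by
      ext p
      simp
    change MeasurableSet {p : (ℕ → ℕ → C) × ((ℕ → ℕ) × (ℕ → ℕ)) |
        ∀ n, p.2.1 (p.2.2 n) = n ∧ p.2.2 (p.2.1 n) = n}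
    rw [this]
    refine MeasurableSet.iInter fun n => ?_
    have m1 : Measurable fun p : (ℕ → ℕ → C) × ((ℕ → ℕ) × (ℕ → ℕ)) => p.2.1 (p.2.2 n) :=
      hap.comp ((measurable_fst.comp measurable_snd).prodMk
        ((measurable_pi_apply n).comp (measurable_snd.comp measurable_snd)))
    have m2 : Measurable fun p : (ℕ → ℕ → C) × ((ℕ → ℕ) × (ℕ → ℕ)) => p.2.2 (p.2.1 n) :=
      hap.comp ((measurable_snd.comp measurable_snd).prodMk
        ((measurable_pi_apply n).comp (measurable_fst.comp measurable_snd)))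
    exact (measurableSet_eq_fun m1 measurable_const).inter
      (measurableSet_eq_fun m2 measurable_const)
  have hinj : InjOn T S := by
    rintro ⟨e, g, h⟩ ⟨h1, h2, h3⟩ ⟨e', g', h'⟩ ⟨h1', h2', h3'⟩ heq
    rw [hT] at heq
    simp only [Prod.mk.injEq] at heq
    obtain ⟨rfl, h4⟩ := heq
    simp only at h1 h2 h3 h1' h2' h3'
    have h5 : ∀ x y, e (h x) (h y) = e (h' x) (h' y) := fun x y => congrFun (congrFun h4 x) y
    have h6 : ∀ n, h (g' n) = n := by
      intro n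
      have := hr e h1 ⟨fun n => h (g' n), fun n => h' (g n),
        fun n => by
          change h' (g (h (g' n))) = n
          rw [(h3 _).1, (h3' n).2],
        fun n => by
          change h (g' (h' (g n))) = n
          rw [(h3' _).1, (h3 n).2]⟩
        (fun x y => by
          change e (h (g' x)) (h (g' y)) = e x y
          rw [h5, (h3' x).2, (h3' y).2])
      exact congrArg (fun σ : ℕ ≃ ℕ => σ n) this
    have h7 : h = h' := by
      funext n
      have := h6 (h' n)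
      rwa [(h3' n).1] at this
    subst h7
    have h8 : g = g' := by
      funext n
      have := (h3 (g' n)).1
      rwa [(h3' n).2] at this
    subst h8
    rfl
  have himg : {p : (ℕ → ℕ → C) × (ℕ → ℕ → C) | p.1 ∈ K ∧ p.2 ∈ K ∧ Iso p.1 p.2} = T '' S := by
    ext ⟨e, e'⟩
    constructor
    · rintro ⟨h1, h2, g, hg⟩
      have h3 : (fun x y => e (g.symm x) (g.symm y)) = e' := by
        funext x y
        exact (hg.symm x y)
      refine ⟨(e, (g, g.symm)), ⟨h1, ?_, fun n => ⟨by simp, by simp⟩⟩, ?_⟩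
      · change (fun x y => e (g.symm x) (g.symm y)) ∈ K
        rw [h3]
        exact h2
      · rw [hT]
        simp only [Prod.mk.injEq, true_and]
        exact h3
    · rintro ⟨⟨e₀, g, h⟩, ⟨h1, h2, h3⟩, heq⟩
      rw [hT] at heq
      simp only [Prod.mk.injEq] at heq
      obtain ⟨rfl, rfl⟩ := heq
      have h4 : ∀ n, h (g n) = n := fun n => (h3 n).2
      exact ⟨h1, h2, ⟨g, h, h4, fun n => (h3 n).1⟩, fun x y => by
        change e₀ (h (g x)) (h (g y)) = e₀ x y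
        rw [h4, h4]⟩
  rw [himg]
  exact hSm.image_of_measurable_injOn hTm hinj

theorem pf_RIG (hSIL : Pool.Agent.H71.CQ.T_SIL) : T_RIG := by
  intro C _ _ K hK hr
  rcases hSIL (ℕ → ℕ → C) K hK (fun e e' => e ∈ K ∧ e' ∈ K ∧ Iso e e')
    (fun e he => ⟨he, he, Pool.Agent.H71.CQ.iso_refl e⟩)
    (fun e he e' he' h => ⟨he', he, h.2.2.symm⟩)
    (fun e he e' he' e'' he'' h h' => ⟨he, he'', h.2.2.trans h'.2.2⟩)
    (meas_iso C K hK hr) with ⟨D, hDX, hD, hall⟩ | ⟨F, hF, hFX, hFE⟩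
  · exact Or.inl ⟨D, hD, fun x hx => by
      obtain ⟨d, hd, h⟩ := hall x hx
      exact ⟨d, hd, h.2.2⟩⟩
  · exact Or.inr ⟨F, hF, hFX, fun u v huv h => hFE u v huv ⟨hFX u, hFX v, h⟩⟩

end Pool.Agent.H14.CO
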